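import Mathlib

/-!
# Exponential growth of the coefficients of reciprocal false theta functions

`Ψ(-q^a, q) = ∑_{n ≥ 0} (-1)^{n(n+1)/2} q^{a n(n+1)/2 + n(n-1)/2} (1 - q^{2n+1})` is negative at the
point `q ∈ (0,1)` with `q^a = 3/5`, and it is `1` at `q = 0`.  So it has a zero in `(0,1)`, and the
coefficients of the reciprocal series grow exponentially.
-/

set_option autoImplicit false

namespace Pool.Agent.Results.MP_0ebc21_nt.ExponentialGrowth

open Finset Filter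

/-- The exponent `a n(n+1)/2 + n(n-1)/2` of the `n`-th term, `n ∈ ℤ`. -/
def expo (a : ℕ) (n : ℤ) : ℤ := a * (n * (n + 1) / 2) + n * (n - 1) / 2

/-- The sign of the `n`-th term: `(-1)^{n(n+1)/2}` for `n ≥ 0` and `-(-1)^{n(n+1)/2}` for `n < 0`. -/
def sgn (n : ℤ) : ℤ := (if 0 ≤ n then 1 else -1) * (-1) ^ (n * (n + 1) / 2).toNat

/-- The false theta function `Ψ(-q^a, q)` as a formal power series: the coefficient of `q^m` is the
sum of the signs of the terms with the exponent `m` (all of them have `|n| ≤ m` if `a ≥ 1`). -/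
noncomputable def Psi (a : ℕ) : PowerSeries ℤ :=
  PowerSeries.mk fun m => ∑ n ∈ Icc (-(m : ℤ)) m, if expo a n = m then sgn n else 0

/-- `c a n` is the coefficient of `q^n` in `1 / Ψ(-q^a, q)`. -/
noncomputable def c (a n : ℕ) : ℤ := PowerSeries.coeff n (PowerSeries.invOfUnit (Psi a) 1)

theorem even_mul (n : ℤ) : n * (n + 1) % 2 = 0 := by
  have := Int.even_mul_succ_self n
  exact Int.even_iff.1 this

theorem even_mul' (n : ℤ) : n * (n - 1) % 2 = 0 := by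
  have h := even_mul (n - 1)
  have : (n - 1) * (n - 1 + 1) = n * (n - 1) := by ring
  rw [this] at h; exact h

theorem expo_two (a : ℕ) (n : ℤ) : 2 * expo a n = a * (n * (n + 1)) + n * (n - 1) := by
  have h1 := even_mul n
  have h2 := even_mul' n
  have h3 : 2 * (n * (n + 1) / 2) = n * (n + 1) := by omega
  have h4 : 2 * (n * (n - 1) / 2) = n * (n - 1) := by omega
  unfold expo
  calc 2 * ((a : ℤ) * (n * (n + 1) / 2) + n * (n - 1) / 2)
      = a * (2 * (n * (n + 1) / 2)) + 2 * (n * (n - 1) / 2) := by ring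
    _ = _ := by rw [h3, h4]

theorem abs_le_expo {a : ℕ} (ha : 1 ≤ a) (n : ℤ) : |n| ≤ expo a n := by
  have h := expo_two a n
  have ha' : (1 : ℤ) ≤ a := by exact_mod_cast ha
  have h1 : 0 ≤ n * (n + 1) := by
    rcases le_or_gt 0 n with h | h
    · positivity
    · nlinarith
  have h2 : n * (n + 1) ≤ a * (n * (n + 1)) := by nlinarith
  have h3 : |n| ≤ n * n := by
    rcases eq_or_ne n 0 with rfl | hn
    · simp
    · have : 1 ≤ |n| := Int.one_le_abs hn
      nlinarith [abs_mul_abs_self n]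
  nlinarith

theorem expo_nonneg {a : ℕ} (ha : 1 ≤ a) (n : ℤ) : 0 ≤ expo a n :=
  (abs_nonneg n).trans (abs_le_expo ha n)

theorem abs_sgn (n : ℤ) : |sgn n| = 1 := by
  unfold sgn
  rw [abs_mul, abs_pow]
  split_ifs <;> simp

/-- the function in the unit interval -/
noncomputable def F (a : ℕ) (q : ℝ) : ℝ := ∑' m : ℕ, ((PowerSeries.coeff m (Psi a) : ℤ) : ℝ) * q ^ m

theorem coeff_le (a m : ℕ) : |((PowerSeries.coeff m (Psi a) : ℤ) : ℝ)| ≤ 2 * m + 1 := by
  unfold Psi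
  rw [PowerSeries.coeff_mk]
  have h : |∑ n ∈ Icc (-(m : ℤ)) m, (if expo a n = m then sgn n else 0 : ℤ)| ≤ 2 * m + 1 := by
    refine (Finset.abs_sum_le_sum_abs _ _).trans ?_
    calc ∑ n ∈ Icc (-(m : ℤ)) m, |(if expo a n = m then sgn n else 0 : ℤ)|
        ≤ ∑ n ∈ Icc (-(m : ℤ)) m, 1 := by
          refine Finset.sum_le_sum fun n _ => ?_
          split_ifs
          · rw [abs_sgn]
          · simp
      _ = 2 * m + 1 := by
          rw [Finset.sum_const, Int.card_Icc]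
          simp only [nsmul_eq_mul, mul_one]
          omega
  exact_mod_cast h

theorem summable_coeff (a : ℕ) {q : ℝ} (h0 : 0 ≤ q) (h1 : q < 1) :
    Summable fun m : ℕ => (2 * (m : ℝ) + 1) * q ^ m := by
  have h2 : Summable fun m : ℕ => ((m : ℝ) ^ 1 * q ^ m : ℝ) :=
    summable_pow_mul_geometric_of_norm_lt_one 1 (by rw [Real.norm_eq_abs, abs_of_nonneg h0]; exact h1)
  have h3 : Summable fun m : ℕ => q ^ m := summable_geometric_of_lt_one h0 h1
  refine ((h2.mul_left 2).add h3).congr fun m => ?_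
  ring

theorem continuousOn_F (a : ℕ) {r : ℝ} (h0 : 0 ≤ r) (h1 : r < 1) : ContinuousOn (F a) (Set.Icc 0 r) := by
  unfold F
  refine continuousOn_tsum (u := fun m : ℕ => (2 * (m : ℝ) + 1) * r ^ m) (fun m => ?_)
    (summable_coeff a h0 h1) (fun m q hq => ?_)
  · exact (continuous_const.mul (continuous_pow m)).continuousOn
  · rw [Real.norm_eq_abs, abs_mul, abs_pow]
    have hq1 : |q| ≤ r := by rw [abs_of_nonneg hq.1]; exact hq.2
    gcongr
    exact coeff_le a m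

theorem F_zero (a : ℕ) : F a 0 = 1 := by
  unfold F
  rw [tsum_eq_single 0]
  · unfold Psi
    rw [PowerSeries.coeff_mk]
    simp [expo, sgn]
  · intro m hm
    simp [hm]

theorem summable_int {a : ℕ} (ha : 1 ≤ a) {q : ℝ} (h0 : 0 ≤ q) (h1 : q < 1) :
    Summable fun n : ℤ => (sgn n : ℝ) * q ^ (expo a n).toNat := by
  have hs : Summable fun n : ℤ => q ^ n.natAbs := by
    have hg : Summable fun n : ℕ => q ^ n := summable_geometric_of_lt_one h0 h1
    refine Summable.of_nat_of_neg ?_ ?_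
    · simpa using hg
    · simpa using hg
  refine Summable.of_norm_bounded hs fun n => ?_
  have habs : |(sgn n : ℝ)| = 1 := by exact_mod_cast abs_sgn n
  rw [norm_mul, Real.norm_eq_abs, habs, one_mul, norm_pow, Real.norm_eq_abs, abs_of_nonneg h0]
  refine pow_le_pow_of_le_one h0 h1.le ?_
  have h5 := abs_le_expo ha n
  rw [Int.abs_eq_natAbs] at h5
  omega

/-- the power series as a sum over the integers -/
theorem F_eq_int {a : ℕ} (ha : 1 ≤ a) {q : ℝ} (h0 : 0 ≤ q) (h1 : q < 1) :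
    F a q = ∑' n : ℤ, (sgn n : ℝ) * q ^ (expo a n).toNat := by
  have hs := summable_int ha h0 h1
  have h2 := (hs.hasSum).tsum_fiberwise (fun n : ℤ => (expo a n).toNat)
  rw [← h2.tsum_eq]
  unfold F
  refine tsum_congr fun m => ?_
  have hfib : ∀ n : ℤ, (expo a n).toNat = m ↔ expo a n = m := by
    intro n
    have := expo_nonneg ha n
    omega
  rw [tsum_subtype ((fun n : ℤ => (expo a n).toNat) ⁻¹' {m})
    (fun n : ℤ => (sgn n : ℝ) * q ^ (expo a n).toNat)]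
  rw [tsum_eq_sum (s := Icc (-(m : ℤ)) m)]
  · unfold Psi
    rw [PowerSeries.coeff_mk, Int.cast_sum, Finset.sum_mul]
    refine Finset.sum_congr rfl fun n _ => ?_
    by_cases h : expo a n = m
    · rw [if_pos h, Set.indicator_of_mem (by simp [hfib, h])]
      rw [(hfib n).2 h]
    · rw [if_neg h, Set.indicator_of_notMem (by simp [hfib, h])]
      simp
  · intro n hn
    refine Set.indicator_of_notMem ?_ _
    simp only [Set.mem_preimage, Set.mem_singleton_iff, hfib]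
    intro h
    apply hn
    have := abs_le_expo ha n
    rw [h] at this
    rw [Finset.mem_Icc]
    exact abs_le.1 this

/-- the `n`-th term for natural `n`, with the term of `-(n+1)` -/
noncomputable def T (a : ℕ) (q : ℝ) (n : ℕ) : ℝ :=
  (-1) ^ (n * (n + 1) / 2) * (q ^ a) ^ (n * (n + 1) / 2) * q ^ (n * (n - 1) / 2) *
    (1 - q ^ (2 * n + 1))

theorem nat_half (n : ℕ) : ((n : ℤ) * ((n : ℤ) + 1) / 2) = ((n * (n + 1) / 2 : ℕ) : ℤ) := by
  push_cast; rfl

theorem nat_half' (n : ℕ) : ((n : ℤ) * ((n : ℤ) - 1) / 2) = ((n * (n - 1) / 2 : ℕ) : ℤ) := by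
  rcases n with _ | n
  · simp
  · push_cast
    simp

theorem term_eq (a : ℕ) (q : ℝ) (n : ℕ) :
    (sgn (n : ℤ) : ℝ) * q ^ (expo a n).toNat +
      (sgn (-((n : ℤ) + 1)) : ℝ) * q ^ (expo a (-((n : ℤ) + 1))).toNat = T a q n := by
  have e1 : expo a n = ((a * (n * (n + 1) / 2) + n * (n - 1) / 2 : ℕ) : ℤ) := by
    unfold expo
    rw [nat_half, nat_half']
    push_cast
    rfl
  have e0 : (-((n : ℤ) + 1)) * (-((n : ℤ) + 1) + 1) / 2 = ((n * (n + 1) / 2 : ℕ) : ℤ) := by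
    rw [← nat_half]; congr 1; ring
  have e2 : expo a (-((n : ℤ) + 1)) =
      ((a * (n * (n + 1) / 2) + (n * (n - 1) / 2 + (2 * n + 1)) : ℕ) : ℤ) := by
    have h := expo_two a (-((n : ℤ) + 1))
    have h' := expo_two a (n : ℤ)
    rw [e1] at h'
    have h3 : 2 * expo a (-((n : ℤ) + 1)) =
        2 * ((a * (n * (n + 1) / 2) + n * (n - 1) / 2 : ℕ) : ℤ) + 2 * (2 * n + 1) := by
      rw [h, h']; ring
    push_cast at h3 ⊢
    linarith
  have s1 : sgn (n : ℤ) = (-1) ^ (n * (n + 1) / 2) := by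
    unfold sgn
    rw [if_pos (by positivity), nat_half, Int.toNat_natCast, one_mul]
  have s2 : sgn (-((n : ℤ) + 1)) = -(-1) ^ (n * (n + 1) / 2) := by
    unfold sgn
    rw [if_neg (by omega), e0, Int.toNat_natCast, neg_one_mul]
  rw [e1, e2, s1, s2, Int.toNat_natCast, Int.toNat_natCast]
  unfold T
  push_cast
  rw [← pow_mul, pow_add, pow_add, pow_add]
  ring

theorem F_eq_nat {a : ℕ} (ha : 1 ≤ a) {q : ℝ} (h0 : 0 ≤ q) (h1 : q < 1) :
    HasSum (T a q) (F a q) := by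
  have hs := summable_int ha h0 h1
  have h2 := hs.hasSum.nat_add_neg_add_one
  rw [← F_eq_int ha h0 h1] at h2
  have e : T a q = fun n : ℕ => (sgn (n : ℤ) : ℝ) * q ^ (expo a n).toNat +
      (sgn (-((n : ℤ) + 1)) : ℝ) * q ^ (expo a (-((n : ℤ) + 1))).toNat :=
    funext fun n => (term_eq a q n).symm
  rw [e]
  exact h2

theorem geom_le (q : ℝ) (h0 : 0 ≤ q) (h1 : q ≤ 1) (n : ℕ) : 1 - q ^ n ≤ n * (1 - q) := by
  have := one_add_mul_le_pow (a := q - 1) (by linarith) n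
  have e : 1 + (q - 1) = q := by ring
  rw [e] at this
  linarith

/-- the bound for the tail terms -/
theorem T_le {a : ℕ} {q : ℝ} (h0 : 0 ≤ q) (h1 : q < 1) (hx : q ^ a = 3 / 5) (j : ℕ) :
    T a q (j + 3) ≤ (1 - q) * ((3 / 5 : ℝ) ^ 6 * ((2 * j + 7) * (81 / 625 : ℝ) ^ j)) := by
  have hexp : 6 + 4 * j ≤ (j + 3) * (j + 3 + 1) / 2 := by
    rw [Nat.le_div_iff_mul_le (by norm_num)]
    have hjj : j ≤ j * j := Nat.le_mul_self j
    nlinarith
  have hnn : 0 ≤ 1 - q ^ (2 * (j + 3) + 1) := by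
    have := pow_le_one₀ h0 h1.le (n := 2 * (j + 3) + 1)
    linarith
  have hg := geom_le q h0 h1.le (2 * (j + 3) + 1)
  have hqq : q ^ ((j + 3) * (j + 3 - 1) / 2) ≤ 1 := pow_le_one₀ h0 h1.le
  have hqq0 : 0 ≤ q ^ ((j + 3) * (j + 3 - 1) / 2) := pow_nonneg h0 _
  have hx6 : (3 / 5 : ℝ) ^ ((j + 3) * (j + 3 + 1) / 2) ≤ (3 / 5 : ℝ) ^ (6 + 4 * j) :=
    pow_le_pow_of_le_one (by norm_num) (by norm_num) hexp
  have hsign : ((-1 : ℝ)) ^ ((j + 3) * (j + 3 + 1) / 2) ≤ 1 := by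
    rcases neg_one_pow_eq_or ℝ ((j + 3) * (j + 3 + 1) / 2) with h | h <;> rw [h] <;> norm_num
  unfold T
  rw [hx]
  have hA : 0 ≤ (3 / 5 : ℝ) ^ ((j + 3) * (j + 3 + 1) / 2) := by positivity
  calc (-1 : ℝ) ^ ((j + 3) * (j + 3 + 1) / 2) * (3 / 5) ^ ((j + 3) * (j + 3 + 1) / 2) *
        q ^ ((j + 3) * (j + 3 - 1) / 2) * (1 - q ^ (2 * (j + 3) + 1))
      ≤ 1 * (3 / 5) ^ ((j + 3) * (j + 3 + 1) / 2) * 1 * (1 - q ^ (2 * (j + 3) + 1)) := by
        refine mul_le_mul_of_nonneg_right ?_ hnn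
        calc (-1 : ℝ) ^ ((j + 3) * (j + 3 + 1) / 2) * (3 / 5) ^ ((j + 3) * (j + 3 + 1) / 2) *
              q ^ ((j + 3) * (j + 3 - 1) / 2)
            ≤ 1 * (3 / 5) ^ ((j + 3) * (j + 3 + 1) / 2) * q ^ ((j + 3) * (j + 3 - 1) / 2) := by
              refine mul_le_mul_of_nonneg_right ?_ hqq0
              exact mul_le_mul_of_nonneg_right hsign hA
          _ ≤ 1 * (3 / 5) ^ ((j + 3) * (j + 3 + 1) / 2) * 1 := by
              refine mul_le_mul_of_nonneg_left hqq ?_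
              rw [one_mul]; exact hA
    _ ≤ (3 / 5 : ℝ) ^ (6 + 4 * j) * ((2 * (j + 3) + 1 : ℕ) * (1 - q)) := by
        rw [one_mul, mul_one]
        exact mul_le_mul hx6 hg hnn (by positivity)
    _ = (1 - q) * ((3 / 5 : ℝ) ^ 6 * ((2 * j + 7) * (81 / 625 : ℝ) ^ j)) := by
        rw [pow_add, pow_mul]
        push_cast
        have : ((3 / 5 : ℝ) ^ 4) = 81 / 625 := by norm_num
        rw [this]
        ring

theorem tail_sum : HasSum (fun j : ℕ => (3 / 5 : ℝ) ^ 6 * ((2 * j + 7) * (81 / 625 : ℝ) ^ j))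
    ((3 / 5 : ℝ) ^ 6 * (2 * ((81 / 625) / (1 - 81 / 625) ^ 2) + 7 * (1 - 81 / 625)⁻¹)) := by
  have h1 : HasSum (fun j : ℕ => (j : ℝ) * (81 / 625 : ℝ) ^ j) ((81 / 625) / (1 - 81 / 625) ^ 2) :=
    hasSum_coe_mul_geometric_of_norm_lt_one (by rw [Real.norm_eq_abs, abs_of_pos] <;> norm_num)
  have h2 : HasSum (fun j : ℕ => (81 / 625 : ℝ) ^ j) (1 - 81 / 625)⁻¹ :=
    hasSum_geometric_of_lt_one (by norm_num) (by norm_num)
  have h3 := ((h1.mul_left 2).add (h2.mul_left 7)).mul_left ((3 / 5 : ℝ) ^ 6)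
  have e : (fun j : ℕ => (3 / 5 : ℝ) ^ 6 * ((2 * j + 7) * (81 / 625 : ℝ) ^ j)) =
      fun j : ℕ => (3 / 5 : ℝ) ^ 6 * (2 * ((j : ℝ) * (81 / 625) ^ j) + 7 * (81 / 625) ^ j) := by
    funext j
    ring
  rw [e]
  exact h3

/-- `Ψ(-q^a, q) < 0` if `q^a = 3/5`. -/
theorem F_neg {a : ℕ} (ha : 1 ≤ a) {q : ℝ} (h0 : 3 / 5 ≤ q) (h1 : q < 1) (hx : q ^ a = 3 / 5) :
    F a q < 0 := by
  have hq0 : 0 ≤ q := by linarith
  have hs := F_eq_nat ha hq0 h1
  have hsum3 : HasSum (fun j => T a q (j + 3)) (F a q - ∑ i ∈ range 3, T a q i) :=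
    (hasSum_nat_add_iff' 3).2 hs
  have htail := hasSum_le (T_le hq0 h1 hx) hsum3 (tail_sum.mul_left (1 - q))
  have hT0 : T a q 0 = 1 - q := by simp [T]
  have hT1 : T a q 1 = -(3 / 5) * (1 - q ^ 3) := by
    unfold T
    rw [hx]
    norm_num
  have hT2 : T a q 2 = -(27 / 125) * q * (1 - q ^ 5) := by
    unfold T
    rw [hx]
    norm_num
  rw [Finset.sum_range_succ, Finset.sum_range_succ, Finset.sum_range_one, hT0, hT1, hT2] at htail
  have hp : 0 < 1 - q := by linarith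
  have e3 : 1 - q ^ 3 = (1 - q) * (1 + q + q ^ 2) := by ring
  have e5 : 1 - q ^ 5 = (1 - q) * (1 + q + q ^ 2 + q ^ 3 + q ^ 4) := by ring
  rw [e3, e5] at htail
  have hkey : F a q ≤ (1 - q) * (1 - 3 / 5 * (1 + q + q ^ 2) -
      27 / 125 * q * (1 + q + q ^ 2 + q ^ 3 + q ^ 4) +
      (3 / 5 : ℝ) ^ 6 * (2 * ((81 / 625) / (1 - 81 / 625) ^ 2) + 7 * (1 - 81 / 625)⁻¹)) := by
    linarith
  have hq2 : (3 / 5 : ℝ) ^ 2 ≤ q ^ 2 := by gcongr
  have hq3 : (3 / 5 : ℝ) ^ 3 ≤ q ^ 3 := by gcongr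
  have hq4 : (3 / 5 : ℝ) ^ 4 ≤ q ^ 4 := by gcongr
  have hq5 : (3 / 5 : ℝ) ^ 5 ≤ q ^ 5 := by gcongr
  have hneg : 1 - 3 / 5 * (1 + q + q ^ 2) - 27 / 125 * q * (1 + q + q ^ 2 + q ^ 3 + q ^ 4) +
      (3 / 5 : ℝ) ^ 6 * (2 * ((81 / 625) / (1 - 81 / 625) ^ 2) + 7 * (1 - 81 / 625)⁻¹) < 0 := by
    have e : 27 / 125 * q * (1 + q + q ^ 2 + q ^ 3 + q ^ 4) =
        27 / 125 * (q + q ^ 2 + q ^ 3 + q ^ 4 + q ^ 5) := by ring
    rw [e]
    norm_num at hq2 hq3 hq4 hq5 ⊢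
    linarith
  exact lt_of_le_of_lt hkey (mul_neg_of_pos_of_neg hp hneg)

theorem exists_q {a : ℕ} (ha : 1 ≤ a) : ∃ q : ℝ, 3 / 5 ≤ q ∧ q < 1 ∧ q ^ a = 3 / 5 := by
  refine ⟨(3 / 5 : ℝ) ^ ((1 : ℝ) / a), ?_, ?_, ?_⟩
  · have h : (3 / 5 : ℝ) ^ (1 : ℝ) ≤ (3 / 5 : ℝ) ^ ((1 : ℝ) / a) := by
      refine Real.rpow_le_rpow_of_exponent_ge (by norm_num) (by norm_num) ?_
      rw [div_le_one (by exact_mod_cast ha)]
      exact_mod_cast ha
    simpa using h
  · refine Real.rpow_lt_one (by norm_num) (by norm_num) ?_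
    have : (0 : ℝ) < a := by exact_mod_cast ha
    positivity
  · rw [← Real.rpow_natCast, ← Real.rpow_mul (by norm_num)]
    have : (a : ℝ) ≠ 0 := by
      have : (0 : ℝ) < a := by exact_mod_cast ha
      exact this.ne'
    rw [one_div_mul_cancel this, Real.rpow_one]

theorem exists_zero {a : ℕ} (ha : 1 ≤ a) : ∃ q : ℝ, 0 < q ∧ q < 1 ∧ F a q = 0 := by
  obtain ⟨r, h0, h1, hr⟩ := exists_q ha
  have hneg := F_neg ha h0 h1 hr
  have hc := continuousOn_F a (r := r) (by linarith) h1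
  have := intermediate_value_Icc' (by linarith : (0 : ℝ) ≤ r) hc
  obtain ⟨q, hq, hq0⟩ := this (show (0 : ℝ) ∈ Set.Icc (F a r) (F a 0) from
    ⟨hneg.le, by rw [F_zero]; norm_num⟩)
  refine ⟨q, ?_, lt_of_le_of_lt hq.2 h1, hq0⟩
  rcases hq.1.lt_or_eq with h | h
  · exact h
  · rw [← h, F_zero] at hq0; norm_num at hq0

theorem Psi_mul (a : ℕ) : Psi a * PowerSeries.invOfUnit (Psi a) 1 = 1 := by
  refine PowerSeries.mul_invOfUnit _ _ ?_
  rw [← PowerSeries.coeff_zero_eq_constantCoeff_apply]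
  unfold Psi
  rw [PowerSeries.coeff_mk]
  simp [expo, sgn]

/-- **Q1 is true.**  For every integer `a ≥ 1` the coefficients `c a n` of
`1 / Ψ(-q^a, q) = ∑ c a n q^n` grow exponentially: there is `β > 1` with `|c a n| ≥ β ^ n` for
infinitely many `n`. -/
theorem result : ∀ a : ℕ, 1 ≤ a → ∃ β : ℝ, 1 < β ∧ ∃ᶠ n : ℕ in atTop, β ^ n ≤ |(c a n : ℝ)| := by
  intro a ha
  by_contra hcon
  push Not at hcon
  obtain ⟨q, hq0, hq1, hF⟩ := exists_zero ha
  -- choose `β > 1` with `β q < 1`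
  obtain ⟨β, hβ1, hβ2⟩ : ∃ β : ℝ, 1 < β ∧ β * q < 1 := by
    refine ⟨(1 + q⁻¹) / 2, ?_, ?_⟩
    · have : 1 < q⁻¹ := (one_lt_inv₀ hq0).2 hq1
      linarith
    · have : (1 + q⁻¹) / 2 * q = (q + 1) / 2 := by field_simp
      rw [this]; linarith
  have hev := hcon β hβ1
  have hsc : Summable fun n : ℕ => ‖(c a n : ℝ) * q ^ n‖ := by
    have hg : Summable fun n : ℕ => (β * q) ^ n :=
      summable_geometric_of_lt_one (by positivity) hβ2
    refine Summable.of_norm_bounded_eventually_nat hg ?_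
    filter_upwards [hev] with n hn
    rw [norm_norm, norm_mul, norm_pow, Real.norm_eq_abs, Real.norm_eq_abs, abs_of_pos hq0, mul_pow]
    gcongr
  have hsp : Summable fun m : ℕ => ‖((PowerSeries.coeff m (Psi a) : ℤ) : ℝ) * q ^ m‖ := by
    refine Summable.of_nonneg_of_le (fun _ => norm_nonneg _) (fun m => ?_)
      (summable_coeff a hq0.le hq1)
    rw [norm_mul, norm_pow, Real.norm_eq_abs, Real.norm_eq_abs, abs_of_pos hq0]
    gcongr
    exact coeff_le a m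
  have hprod := tsum_mul_tsum_eq_tsum_sum_antidiagonal_of_summable_norm hsp hsc
  have hF' : (∑' m : ℕ, ((PowerSeries.coeff m (Psi a) : ℤ) : ℝ) * q ^ m) = 0 := hF
  rw [hF', zero_mul] at hprod
  have hone : (∑' n : ℕ, ∑ kl ∈ antidiagonal n,
      ((PowerSeries.coeff kl.1 (Psi a) : ℤ) : ℝ) * q ^ kl.1 * ((c a kl.2 : ℝ) * q ^ kl.2)) = 1 := by
    have hterm : ∀ n : ℕ, ∑ kl ∈ antidiagonal n,
        ((PowerSeries.coeff kl.1 (Psi a) : ℤ) : ℝ) * q ^ kl.1 * ((c a kl.2 : ℝ) * q ^ kl.2) =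
        if n = 0 then 1 else 0 := by
      intro n
      have h1 := congrArg (PowerSeries.coeff n) (Psi_mul a)
      rw [PowerSeries.coeff_mul, PowerSeries.coeff_one] at h1
      have h2 : ((∑ p ∈ antidiagonal n, PowerSeries.coeff p.1 (Psi a) *
          PowerSeries.coeff p.2 (PowerSeries.invOfUnit (Psi a) 1) : ℤ) : ℝ) =
          ((if n = 0 then 1 else 0 : ℤ) : ℝ) := by rw [h1]
      rw [Int.cast_sum] at h2
      calc ∑ kl ∈ antidiagonal n,
            ((PowerSeries.coeff kl.1 (Psi a) : ℤ) : ℝ) * q ^ kl.1 * ((c a kl.2 : ℝ) * q ^ kl.2)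
          = ∑ kl ∈ antidiagonal n, q ^ n * (((PowerSeries.coeff kl.1 (Psi a) *
              PowerSeries.coeff kl.2 (PowerSeries.invOfUnit (Psi a) 1) : ℤ)) : ℝ) := by
            refine Finset.sum_congr rfl fun kl hkl => ?_
            rw [Finset.HasAntidiagonal.mem_antidiagonal] at hkl
            rw [← hkl, pow_add]
            unfold c
            push_cast
            ring
        _ = q ^ n * ((if n = 0 then 1 else 0 : ℤ) : ℝ) := by
            rw [← Finset.mul_sum, h2]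
        _ = if n = 0 then 1 else 0 := by
            split_ifs with h
            · rw [h]; simp
            · simp
    rw [tsum_congr hterm, tsum_ite_eq]
  rw [hone] at hprod
  norm_num at hprod

end Pool.Agent.Results.MP_0ebc21_nt.ExponentialGrowth
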